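import Pool.Agent.BEF.Stmts

/-! BEF, row GPW: powers. -/

namespace Pool.Agent.BEF.H10

open Set Filter Topology MeasureTheory
open Pool.Agent.BE01 Pool.Agent.BEF

noncomputable section

theorem one_mem (κ : Type) [Fintype κ] (X : Type) [NormedCommRing X] [NormedAlgebra ℝ X] :
    (fun (_ : ℝ) (_ : κ → ℝ) => (1 : X)) ∈ HG κ X 0 := by
  refine Submodule.subset_span ⟨1, 0, 0, 1, MvPolynomial.isHomogeneous_one κ ℝ, rfl, Or.inl ?_⟩
  funext ψ z
  simp

theorem gpw (gpr : GprStmt) (gli : GliStmt) : GpwStmt := by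
  intro κ _ X _ _ d n P P'
  have hmul : ∀ (a b : ℕ) (F G : ℝ → (κ → ℝ) → X),
      (F ∈ HG κ X a → G ∈ HG κ X b → (fun ψ z => F ψ z * G ψ z) ∈ HG κ X (a + b)) ∧
      (F ∈ GE κ X a → G ∈ GE κ X b → (fun ψ z => F ψ z * G ψ z) ∈ GE κ X (a + b)) := by
    intro a b F G
    have h := gpr κ X X X (ContinuousLinearMap.mul ℝ X) a b F G
    exact h
  have hE : ∀ (m : ℕ) (F : ℝ → (κ → ℝ) → X), F ∈ GE κ X 1 →
      (fun ψ z => F ψ z ^ m) ∈ GE κ X m := by
    intro m F hF
    induction m with
    | zero =>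
      have h1 := (gli κ X X (ContinuousLinearMap.id ℝ X) 0 _).2.2.1 (one_mem κ X)
      simpa only [pow_zero] using h1
    | succ m ih =>
      have h1 := (hmul m 1 _ _).2 ih hF
      simpa only [pow_succ] using h1
  refine ⟨fun hP => ?_, fun hP => hE n P hP, fun hP hP' hd => ?_⟩
  · induction n with
    | zero => simpa only [pow_zero] using one_mem κ X
    | succ m ih =>
      have h1 := (hmul m 1 _ _).1 ih hP
      simpa only [pow_succ] using h1
  · induction n with
    | zero =>
      have h1 : (fun ψ z => P ψ z ^ (0 + 1) - P' ψ z ^ (0 + 1)) = P - P' := by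
        funext ψ z
        simp
      rw [h1, Nat.add_zero]
      exact hd
    | succ m ih =>
      have h1 := (hmul 1 (d + m) _ _).2 hP ih
      have h2 := (hmul d (m + 1) (P - P') _).2 hd (hE (m + 1) P' hP')
      have e1 : 1 + (d + m) = d + (m + 1) := by omega
      rw [e1] at h1
      have h3 := add_mem h1 h2
      have h4 : (fun ψ z => P ψ z ^ (m + 1 + 1) - P' ψ z ^ (m + 1 + 1)) =
          (fun ψ z => P ψ z * (P ψ z ^ (m + 1) - P' ψ z ^ (m + 1))) +
          (fun ψ z => (P - P') ψ z * P' ψ z ^ (m + 1)) := by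
        funext ψ z
        simp only [Pi.add_apply, Pi.sub_apply]
        ring
      rw [h4]
      exact h3

end

end Pool.Agent.BEF.H10
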